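import Pool.Agent.W721.DL.EXL

/-!
Project DL (helper541, MP_cd6101_pr): BADC, cells are good with large probability.
-/

set_option autoImplicit false

namespace Pool.Agent.W721.DL.BADC

open MeasureTheory ProbabilityTheory Filter Topology
open Pool.Agent.W541.DL

theorem main (hX : S_EXL) (hL : S_LAWL) : S_BADC := by
  intro Ω _ P L hDL H c a b x0 t0 ρ η hH hc ha hb hρ hη
  have := hDL.prob
  set X : Ω → ℝ := fun ω => val (L ω) 0 0 0 1 with hXd
  have hXm : Measurable X := meas_val hDL 0 0 0 1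
  obtain ⟨N, hN⟩ := tail P (fun ω => |X ω|) (by fun_prop) (η/3) (by positivity)
  have hN0 : (0:ℝ) ≤ N := Nat.cast_nonneg N
  refine ⟨(N:ℝ) + 1, by linarith, ?_⟩
  set δ : ℝ := min (x0 - a) (b - x0 - ρ) with hδd
  have hδ : 0 < δ := lt_min (by linarith) (by linarith)
  obtain ⟨e0, he0, hE⟩ := hX Ω P L hDL δ (η/3) hδ (by positivity)
  have hm9 : ∀ᶠ m : ℕ in atTop, (1:ℝ) / (m:ℝ)^9 < e0 := by
    have h1 : Tendsto (fun m : ℕ => (1:ℝ) / (m:ℝ)^9) atTop (𝓝 0) := by
      have h2 : Tendsto (fun m : ℕ => (m:ℝ)^9) atTop atTop :=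
        (tendsto_pow_atTop (by norm_num)).comp tendsto_natCast_atTop_atTop
      simp only [one_div]
      exact h2.inv_tendsto_atTop
    exact h1.eventually (gt_mem_nhds he0)
  have hm3 : ∀ᶠ m : ℕ in atTop, 2 * (N:ℝ) ≤ (m:ℝ)^3 :=
    ((tendsto_pow_atTop (by norm_num)).comp tendsto_natCast_atTop_atTop).eventually_ge_atTop _
  have hmH : ∀ᶠ m : ℕ in atTop, 2 * (H + c) ≤ (m:ℝ)^9 :=
    ((tendsto_pow_atTop (by norm_num)).comp tendsto_natCast_atTop_atTop).eventually_ge_atTop _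
  filter_upwards [hm9, hm3, hmH, eventually_ge_atTop 1] with m h1 h2 h3 h4 j hj i hi
  have hmpos : (0:ℝ) < m := by exact_mod_cast h4
  set x : ℝ := x0 + 3 * i / (m:ℝ)^5 with hx
  set s : ℝ := t0 + j / (m:ℝ)^9 with hs
  set e : ℝ := 1 / (m:ℝ)^9 with he
  have hepos : 0 < e := by positivity
  have hse : t0 + ((j:ℝ) + 1) / (m:ℝ)^9 = s + e := by
    rw [hs, he]
    ring
  have hi' : (i:ℝ) ≤ ρ * (m:ℝ)^5 / 3 := by
    have h5 : (i:ℝ) ≤ ((nI ρ m : ℕ) : ℝ) := by exact_mod_cast hi.le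
    refine le_trans h5 ?_
    unfold nI
    exact Nat.floor_le (by positivity)
  have hx1 : x0 ≤ x := by
    rw [hx]
    have : 0 ≤ 3 * (i:ℝ) / (m:ℝ)^5 := by positivity
    linarith
  have hx2 : x ≤ x0 + ρ := by
    rw [hx]
    have : 3 * (i:ℝ) / (m:ℝ)^5 ≤ ρ := by
      rw [div_le_iff₀ (by positivity)]
      linarith
    linarith
  have hda : δ ≤ |a - x| := by
    rw [abs_sub_comm, abs_of_nonneg (by linarith)]
    exact le_trans (min_le_left _ _) (by linarith)
  have hdb : δ ≤ |b - x| := by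
    rw [abs_of_nonneg (by linarith)]
    exact le_trans (min_le_right _ _) (by linarith)
  have hEa := hE e hepos h1 x s a hda
  have hEb := hE e hepos h1 x s b hdb
  have hcell : ∀ f : R4 → ℝ, cellv f x0 t0 m i j = val f x s x (s + e) := by
    intro f
    unfold cellv
    rw [hse]
  -- the clamp event
  have hclamp : P.real {ω | (N:ℝ) < |(m:ℝ)^3 * cellv (L ω) x0 t0 m i j|} ≤ η / 3 := by
    have hlaw := hL Ω P L hDL x x s (s + e) (by linarith)
    have hms : MeasurableSet {v : ℝ | (N:ℝ) < |(m:ℝ)^3 * v|} :=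
      measurableSet_lt measurable_const (by fun_prop)
    have h5 := hlaw.measure_mem_eq hms
    have h6 : P.real {ω | (N:ℝ) < |(m:ℝ)^3 * cellv (L ω) x0 t0 m i j|} =
        P.real {ω | (N:ℝ) < |(m:ℝ)^3 * ((s + e - s) ^ ((1 : ℝ) / 3) * val (L ω) 0 0 0 1
          - (x - x) ^ 2 / (s + e - s))|} := by
      unfold Measure.real
      simp only [hcell]
      congr 1
    rw [h6]
    refine le_trans (measureReal_mono ?_ (measure_ne_top _ _)) (hN N le_rfl)
    intro ω hω
    simp only [Set.mem_ofPred_eq] at hω ⊢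
    have h7 : s + e - s = e := by ring
    have h8 : (m:ℝ)^3 * e ^ ((1:ℝ)/3) = 1 := by
      have h9 : e = ((m:ℝ)^3)⁻¹ ^ 3 := by
        rw [he]
        field_simp
      rw [h9, ← Real.rpow_natCast (((m:ℝ)^3)⁻¹) 3, ← Real.rpow_mul (by positivity)]
      norm_num
      field_simp
    rw [h7, sub_self, zero_pow (by norm_num), zero_div, sub_zero, ← mul_assoc, h8, one_mul] at hω
    exact hω.le
  have hsub : {ω | ¬ GoodCell (L ω) ((N:ℝ) + 1) H c a b x0 t0 m i j} ⊆
      {ω | (N:ℝ) < |(m:ℝ)^3 * cellv (L ω) x0 t0 m i j|} ∪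
      ({ω | ∃ r, s < r ∧ r < s + e ∧ -2 ≤ val (L ω) x s a r + val (L ω) a r x (s + e)} ∪
      {ω | ∃ r, s < r ∧ r < s + e ∧ -2 ≤ val (L ω) x s b r + val (L ω) b r x (s + e)}) := by
    intro ω hω
    by_contra hcon
    simp only [Set.mem_union, Set.mem_ofPred_eq, not_or, not_lt] at hcon
    obtain ⟨hc1, hc2, hc3⟩ := hcon
    apply hω
    refine ⟨by linarith, ?_⟩
    intro r hr1 hr2 q hq
    rw [hse] at hr2
    rw [hcell] at hc1 ⊢
    simp only [← hx, ← hs]
    rw [hse]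
    have hsum : val (L ω) x s q r + val (L ω) q r x (s + e) < -2 := by
      rcases hq with rfl | rfl
      · by_contra hge
        push Not at hge
        exact hc2 ⟨r, hr1, hr2, hge⟩
      · by_contra hge
        push Not at hge
        exact hc3 ⟨r, hr1, hr2, hge⟩
    have hv : -(1/2) ≤ val (L ω) x s x (s + e) := by
      have h5 := (abs_le.1 hc1).1
      have h6 : 0 < (m:ℝ)^3 := by positivity
      by_contra hlt
      push Not at hlt
      have : (m:ℝ)^3 * val (L ω) x s x (s + e) < (m:ℝ)^3 * (-(1/2)) :=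
        mul_lt_mul_of_pos_left hlt h6
      linarith
    have hHc : H / (m:ℝ)^9 + c / (m:ℝ)^9 ≤ 1/2 := by
      rw [← add_div, div_le_iff₀ (by positivity)]
      linarith
    linarith
  have h5 := measureReal_mono (μ := P) hsub (measure_ne_top _ _)
  have h6 := measureReal_union_le (μ := P)
      {ω | (N:ℝ) < |(m:ℝ)^3 * cellv (L ω) x0 t0 m i j|}
      ({ω | ∃ r, s < r ∧ r < s + e ∧ -2 ≤ val (L ω) x s a r + val (L ω) a r x (s + e)} ∪
      {ω | ∃ r, s < r ∧ r < s + e ∧ -2 ≤ val (L ω) x s b r + val (L ω) b r x (s + e)})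
  have h7 := measureReal_union_le (μ := P)
      {ω | ∃ r, s < r ∧ r < s + e ∧ -2 ≤ val (L ω) x s a r + val (L ω) a r x (s + e)}
      {ω | ∃ r, s < r ∧ r < s + e ∧ -2 ≤ val (L ω) x s b r + val (L ω) b r x (s + e)}
  linarith

end Pool.Agent.W721.DL.BADC
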