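import Pool.Agent.W541.DL.Stm

/-!
Project DL (helper541, MP_cd6101_pr): EXL, long excursions during a short time are too short.
-/

set_option autoImplicit false

namespace Pool.Agent.W721.DL

open MeasureTheory ProbabilityTheory Filter Topology
open Pool.Agent.W541.DL

/-- The upper tail of a real random variable tends to zero. -/
theorem tail {Ω : Type} [MeasurableSpace Ω] (P : Measure Ω) [IsProbabilityMeasure P] (X : Ω → ℝ)
    (hX : Measurable X) (ε : ℝ) (hε : 0 < ε) :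
    ∃ N : ℕ, ∀ K : ℝ, (N : ℝ) ≤ K → P.real {ω | K ≤ X ω} ≤ ε := by
  have hanti : Antitone (fun n : ℕ => {ω | (n : ℝ) ≤ X ω}) := by
    intro m n hmn ω hω
    simp only [Set.mem_ofPred_eq] at hω ⊢
    have : (m : ℝ) ≤ n := by exact_mod_cast hmn
    linarith
  have hmeas : ∀ n : ℕ, MeasurableSet {ω | (n : ℝ) ≤ X ω} := fun n =>
    measurableSet_le measurable_const hX
  have h1 : Tendsto (fun n : ℕ => P {ω | (n : ℝ) ≤ X ω}) atTop (𝓝 0) := by
    have := tendsto_measure_iInter_atTop (μ := P) (s := fun n : ℕ => {ω | (n : ℝ) ≤ X ω})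
      (fun n => (hmeas n).nullMeasurableSet) hanti ⟨0, measure_ne_top _ _⟩
    have h2 : (⋂ n : ℕ, {ω | (n : ℝ) ≤ X ω}) = ∅ := by
      ext ω
      simp only [Set.mem_iInter, Set.mem_ofPred_eq, Set.mem_empty_iff_false, iff_false, not_forall,
        not_le]
      exact exists_nat_gt (X ω)
    rw [h2, measure_empty] at this
    exact this
  have h3 : Tendsto (fun n : ℕ => P.real {ω | (n : ℝ) ≤ X ω}) atTop (𝓝 0) := by
    have := (ENNReal.tendsto_toReal (a := 0) (by simp)).comp h1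
    simpa [Measure.real, Function.comp_def] using this
  obtain ⟨N, hN⟩ := (h3.eventually (gt_mem_nhds hε)).exists
  refine ⟨N, fun K hK => ?_⟩
  refine le_trans (measureReal_mono ?_ (measure_ne_top _ _)) hN.le
  intro ω hω
  simp only [Set.mem_ofPred_eq] at hω ⊢
  linarith

/-- Measurability of the values of the directed landscape. -/
theorem meas_val {Ω : Type} [MeasurableSpace Ω] {P : Measure Ω} {L : Ω → C(R4, ℝ)}
    (hL : IsDirectedLandscape P L) (x s y t : ℝ) : Measurable (fun ω => val (L ω) x s y t) := by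
  unfold val
  by_cases h : s < t
  · simp only [h, dif_pos]
    exact hL.meas _
  · simp only [h, dif_neg, not_false_eq_true]
    exact measurable_const

namespace EXL

theorem main (hO : S_OTTL) (hL : S_LAWL) : S_EXL := by
  intro Ω _ P L hDL δ η hδ hη
  have := hDL.prob
  set X : Ω → ℝ := fun ω => val (L ω) 0 0 0 1 with hX
  have hXm : Measurable X := meas_val hDL 0 0 0 1
  obtain ⟨c, hc0, hc⟩ : ∃ c : ℝ, 0 ≤ c ∧ 1 / 2 ≤ P.real {ω | -c ≤ val (L ω) 0 0 0 1} := by
    obtain ⟨N, hN⟩ := tail P (fun ω => - X ω) hXm.neg (1/2) (by norm_num)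
    refine ⟨N, Nat.cast_nonneg N, ?_⟩
    have h1 := hN N le_rfl
    have h2 : P.real (Set.univ : Set Ω) ≤ P.real {ω | -(N:ℝ) ≤ val (L ω) 0 0 0 1} +
        P.real {ω | (N:ℝ) ≤ - X ω} := by
      refine le_trans (measureReal_mono ?_ (measure_ne_top _ _)) (measureReal_union_le _ _)
      intro ω _
      rcases le_total (-(N:ℝ)) (val (L ω) 0 0 0 1) with h | h
      · exact Or.inl h
      · refine Or.inr ?_
        simp only [Set.mem_ofPred_eq, hX]
        linarith
    rw [probReal_univ] at h2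
    linarith
  obtain ⟨N, hN⟩ := tail P X hXm (η/4) (by positivity)
  set K : ℝ := (N : ℝ) with hK
  have hK0 : 0 ≤ K := Nat.cast_nonneg N
  have hD : 0 < 2 + c + K := by positivity
  refine ⟨min 1 (δ^2 / (2 + c + K)), lt_min one_pos (by positivity), ?_⟩
  intro e he he0 x s b hb
  have he1 : e < 1 := lt_of_lt_of_le he0 (min_le_left _ _)
  have he2 : e < δ^2 / (2 + c + K) := lt_of_lt_of_le he0 (min_le_right _ _)
  have he3 : 2 + c + K ≤ δ^2 / e := by
    rw [lt_div_iff₀ hD] at he2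
    rw [le_div_iff₀ he]
    linarith
  have hcb0 : 0 ≤ e ^ ((1:ℝ)/3) := Real.rpow_nonneg he.le _
  have hcb1 : e ^ ((1:ℝ)/3) ≤ 1 := Real.rpow_le_one he.le he1.le (by norm_num)
  -- the key bound
  have key : ∀ p q : ℝ, δ ≤ |p - q| →
      P.real {ω | -1 - 1 - c * e ^ ((1 : ℝ) / 3) ≤ val (L ω) p s q (s + e)} ≤ η / 4 := by
    intro p q hpq
    have h1 := hL Ω P L hDL p q s (s + e) (by linarith)
    have h2 := h1.measure_mem_eq (s := Set.Ici (-1 - 1 - c * e ^ ((1 : ℝ) / 3))) measurableSet_Ici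
    have h3 : P.real {ω | -1 - 1 - c * e ^ ((1 : ℝ) / 3) ≤ val (L ω) p s q (s + e)} =
        P.real {ω | -1 - 1 - c * e ^ ((1 : ℝ) / 3) ≤
          (s + e - s) ^ ((1 : ℝ) / 3) * val (L ω) 0 0 0 1 - (p - q) ^ 2 / (s + e - s)} := by
      unfold Measure.real
      congr 1
    rw [h3]
    refine le_trans (measureReal_mono ?_ (measure_ne_top _ _)) (hN K le_rfl)
    intro ω hω
    simp only [Set.mem_ofPred_eq] at hω ⊢
    have h4 : s + e - s = e := by ring
    rw [h4] at hω
    have h5 : δ^2 ≤ (p - q)^2 := by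
      rw [← sq_abs (p - q)]
      exact pow_le_pow_left₀ hδ.le hpq 2
    have h6 : δ^2 / e ≤ (p - q)^2 / e := by gcongr
    have h7 : c * e ^ ((1:ℝ)/3) ≤ c := by nlinarith
    have h8 : K ≤ e ^ ((1:ℝ)/3) * X ω := by
      simp only [hX]
      linarith
    have h9 : 0 ≤ X ω := by
      by_contra hneg
      push Not at hneg
      have h10 : e ^ ((1:ℝ)/3) * X ω ≤ 0 := mul_nonpos_of_nonneg_of_nonpos hcb0 hneg.le
      have h11 : 0 < e ^ ((1:ℝ)/3) := Real.rpow_pos_of_pos he _
      have h12 : e ^ ((1:ℝ)/3) * X ω < 0 := mul_neg_of_pos_of_neg h11 hneg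
      linarith
    calc K ≤ e ^ ((1:ℝ)/3) * X ω := h8
      _ ≤ 1 * X ω := by gcongr
      _ = X ω := one_mul _
  obtain ⟨hO1, hO2⟩ := hO Ω P L c hDL hc0 hc x s b e (-1) he
  have hb' : δ ≤ |x - b| := by rwa [abs_sub_comm]
  have hk1 := key x b hb'
  have hk2 := key b x hb
  have hsub : {ω | ∃ r, s < r ∧ r < s + e ∧
      -2 ≤ val (L ω) x s b r + val (L ω) b r x (s + e)} ⊆
      {ω | ∃ r, s < r ∧ r < s + e ∧ -1 ≤ val (L ω) x s b r} ∪
      {ω | ∃ r, s < r ∧ r < s + e ∧ -1 ≤ val (L ω) b r x (s + e)} := by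
    rintro ω ⟨r, hr1, hr2, hr3⟩
    rcases le_or_gt (-1) (val (L ω) x s b r) with h | h
    · exact Or.inl ⟨r, hr1, hr2, h⟩
    · refine Or.inr ⟨r, hr1, hr2, ?_⟩
      linarith
  have h1 := measureReal_mono (μ := P) hsub (measure_ne_top _ _)
  have h2 := measureReal_union_le (μ := P)
      {ω | ∃ r, s < r ∧ r < s + e ∧ -1 ≤ val (L ω) x s b r}
      {ω | ∃ r, s < r ∧ r < s + e ∧ -1 ≤ val (L ω) b r x (s + e)}
  linarith

end EXL

end Pool.Agent.W721.DL
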